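import Pool.Agent.Helper40.AC.Stmts

/-! # Polynomial rings over `ℂ` have finite global dimension -/

set_option autoImplicit false

open CategoryTheory Polynomial TensorProduct

namespace Pool.Agent.Helper76.AC

open Pool.Agent.Helper40.AC

theorem pd_of_cat {R : Type} [CommRing R] : ∀ (n : ℕ) (M : Type) [AddCommGroup M] [Module R M],
    HasProjectiveDimensionLE (ModuleCat.of R M) n → HasPD R n M
  | 0 => by
    intro M _ _ h
    simp only [HasProjectiveDimensionLE, zero_add] at h
    rw [← projective_iff_hasProjectiveDimensionLT_one, ← IsProjective.iff_projective] at h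
    exact h
  | n + 1 => by
    intro M _ _ h F _ _ hF π hπ
    apply pd_of_cat n
    have hS := LinearMap.shortExact_shortComplexKer hπ
    have hP : Projective (ModuleCat.of R F) := (IsProjective.iff_projective _).1 hF
    exact (hS.hasProjectiveDimensionLT_X₃_iff n hP).mp h

theorem bc_step {R A : Type} [CommRing R] [CommRing A] [Algebra R A] [Module.Flat R A] (n : ℕ)
    (F N : Type) [AddCommGroup F] [Module R F] [AddCommGroup N] [Module R N]
    [Module.Projective R F] (f : F →ₗ[R] N) (hf : Function.Surjective f)
    (h2 : HasProjectiveDimensionLE (ModuleCat.of A (A ⊗[R] (LinearMap.ker f))) n) :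
    HasProjectiveDimensionLE (ModuleCat.of A (A ⊗[R] N)) (n + 1) := by
  have hex : Function.Exact (LinearMap.ker f).subtype f := fun x => by simp
  have hex2 : Function.Exact ((LinearMap.ker f).subtype.baseChange A) (f.baseChange A) := by
    intro x
    exact Module.Flat.lTensor_exact A hex x
  let T : ShortComplex (ModuleCat.{0} A) :=
    ModuleCat.shortComplexOfCompEqZero ((LinearMap.ker f).subtype.baseChange A) (f.baseChange A)
      hex2.linearMap_comp_eq_zero
  have hT : T.ShortExact := by
    apply ModuleCat.shortComplex_shortExact
    · exact hex2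
    · exact Module.Flat.lTensor_preserves_injective_linearMap (M := A)
        (LinearMap.ker f).subtype (LinearMap.ker f).injective_subtype
    · exact LinearMap.lTensor_surjective A hf
  have hP2 : Projective (ModuleCat.of A (A ⊗[R] F)) := by
    rw [← IsProjective.iff_projective]
    change Module.Projective A (A ⊗[R] F)
    infer_instance
  exact (hT.hasProjectiveDimensionLT_X₃_iff n hP2).mpr h2

theorem bc {R A : Type} [CommRing R] [CommRing A] [Algebra R A] [Module.Flat R A] (n : ℕ) :
    ∀ (N : Type) [AddCommGroup N] [Module R N],
    HasProjectiveDimensionLE (ModuleCat.of R N) n →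
    HasProjectiveDimensionLE (ModuleCat.of A (A ⊗[R] N)) n := by
  induction n with
  | zero =>
    intro N _ _ h
    simp only [HasProjectiveDimensionLE, zero_add] at h ⊢
    rw [← projective_iff_hasProjectiveDimensionLT_one, ← IsProjective.iff_projective] at h ⊢
    have h' : Module.Projective R N := h
    change Module.Projective A (A ⊗[R] N)
    infer_instance
  | succ n ih =>
    intro N _ _ h
    have hf : Function.Surjective (Finsupp.linearCombination R (id : N → N)) :=
      Finsupp.linearCombination_id_surjective R N
    have hS := LinearMap.shortExact_shortComplexKer hf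
    have hP : Projective (ModuleCat.of R (N →₀ R)) := by
      rw [← IsProjective.iff_projective]
      infer_instance
    have h1 : HasProjectiveDimensionLE
        (ModuleCat.of R (LinearMap.ker (Finsupp.linearCombination R (id : N → N)))) n :=
      (hS.hasProjectiveDimensionLT_X₃_iff n hP).mp h
    have h2 := ih (LinearMap.ker (Finsupp.linearCombination R (id : N → N))) h1
    exact bc_step n (N →₀ R) N (Finsupp.linearCombination R (id : N → N)) hf h2

section seq

variable {R : Type} [CommRing R] (M : Type) [AddCommGroup M] [Module R M] [Module R[X] M]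
  [IsScalarTower R R[X] M]

/-- the evaluation -/
noncomputable def ev0 : PolynomialModule R M →+ M where
  toFun p := p.coeff.sum fun i m => (X : R[X]) ^ i • m
  map_zero' := rfl
  map_add' p q := Finsupp.sum_add_index' (fun _ => smul_zero _) fun _ _ _ => smul_add _ _ _

theorem ev0_single (i : ℕ) (m : M) :
    ev0 M (PolynomialModule.single R i m) = (X : R[X]) ^ i • m := by
  change Finsupp.sum (Finsupp.single i m) (fun i m => (X : R[X]) ^ i • m) = _
  exact Finsupp.sum_single_index (smul_zero _)

/-- the evaluation -/
noncomputable def ev : PolynomialModule R M →ₗ[R[X]] M where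
  toFun := ev0 M
  map_add' := (ev0 M).map_add
  map_smul' s p := by
    simp only [RingHom.id_apply]
    induction p using PolynomialModule.induction_linear with
    | zero => simp
    | add x y hx hy => rw [smul_add, map_add, hx, hy, map_add, smul_add]
    | single j m =>
      induction s using Polynomial.induction_on' with
      | add p q hp hq => rw [add_smul, map_add, hp, hq, add_smul]
      | monomial i r =>
        rw [PolynomialModule.monomial_smul_single, ev0_single, ev0_single, smul_smul,
          ← algebraMap_smul R[X] r m, smul_smul]
        congr 1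
        rw [Polynomial.algebraMap_eq, ← Polynomial.C_mul_X_pow_eq_monomial, pow_add]
        ring

theorem ev_single (i : ℕ) (m : M) : ev M (PolynomialModule.single R i m) = (X : R[X]) ^ i • m :=
  ev0_single M i m

/-- the action of `X` on `M` as an `R`-linear map -/
noncomputable def xa : M →ₗ[R] M where
  toFun m := (X : R[X]) • m
  map_add' := smul_add _
  map_smul' r m := by
    simp only [RingHom.id_apply]
    rw [← algebraMap_smul R[X] r m, ← algebraMap_smul R[X] r ((X : R[X]) • m), smul_smul, smul_smul,
      mul_comm]

/-- `X - x` -/
noncomputable def df : PolynomialModule R M →ₗ[R[X]] PolynomialModule R M where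
  toFun p := (X : R[X]) • p - PolynomialModule.map R (xa M) p
  map_add' p q := by
    rw [smul_add, map_add]
    abel
  map_smul' s p := by
    rw [PolynomialModule.map_smul]
    simp only [Algebra.algebraMap_self, Polynomial.map_id, RingHom.id_apply, smul_sub]
    rw [smul_smul, smul_smul, mul_comm]

theorem df_single (i : ℕ) (m : M) : df M (PolynomialModule.single R i m) =
    PolynomialModule.single R (i + 1) m - PolynomialModule.single R i ((X : R[X]) • m) := by
  change (X : R[X]) • (PolynomialModule.single R i m) - PolynomialModule.map R (xa M) _ = _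
  rw [PolynomialModule.map_single, ← Polynomial.monomial_one_one_eq_X,
    PolynomialModule.monomial_smul_single, one_smul, add_comm 1 i]
  rfl

theorem ev_df (p : PolynomialModule R M) : ev M (df M p) = 0 := by
  induction p using PolynomialModule.induction_linear with
  | zero => simp
  | add x y hx hy => rw [map_add, map_add, hx, hy, add_zero]
  | single j m =>
    rw [df_single, map_sub, ev_single, ev_single, smul_smul, pow_succ, sub_self]

theorem df_inj : Function.Injective (df (R := R) M) := by
  rw [injective_iff_map_eq_zero]
  intro p hp
  by_contra hne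
  have hne' : p.coeff ≠ 0 := by simpa using hne
  obtain ⟨d, hd⟩ := Finsupp.support_nonempty_iff.2 hne'
  obtain ⟨D, hD, hmax⟩ := p.coeff.support.exists_max_image id ⟨d, hd⟩
  have h1 : (df M p).coeff (D + 1) = 0 := by rw [hp]; rfl
  have h2 : (df M p).coeff (D + 1) = ((X : R[X]) • p).coeff (D + 1) -
      (PolynomialModule.map R (xa M) p).coeff (D + 1) := rfl
  have h3 : (PolynomialModule.map R (xa M) p).coeff (D + 1) = xa M (p.coeff (D + 1)) := rfl
  have h4 : p.coeff (D + 1) = 0 := by
    by_contra h
    have := hmax (D + 1) (Finsupp.mem_support_iff.2 h)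
    simp at this
  have h5 : ((X : R[X]) • p).coeff (D + 1) = p.coeff D := by
    rw [← Polynomial.monomial_one_one_eq_X, PolynomialModule.monomial_smul_apply]
    simp
  rw [h2, h3, h4, h5, map_zero, sub_zero] at h1
  exact (Finsupp.mem_support_iff.1 hD) h1

theorem single_mem (i : ℕ) : ∀ m : M, PolynomialModule.single R i m -
    PolynomialModule.single R 0 ((X : R[X]) ^ i • m) ∈ LinearMap.range (df (R := R) M) := by
  induction i with
  | zero => intro m; simp
  | succ i ih =>
    intro m
    have h1 := ih ((X : R[X]) • m)
    have h2 : df M (PolynomialModule.single R i m) ∈ LinearMap.range (df (R := R) M) := ⟨_, rfl⟩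
    rw [df_single] at h2
    have h3 := Submodule.add_mem _ h1 h2
    rw [smul_smul, ← pow_succ] at h3
    convert h3 using 1
    abel

theorem mem_range (p : PolynomialModule R M) :
    p - PolynomialModule.single R 0 (ev M p) ∈ LinearMap.range (df (R := R) M) := by
  induction p using PolynomialModule.induction_linear with
  | zero => simp
  | add x y hx hy =>
    have := Submodule.add_mem _ hx hy
    rw [map_add, PolynomialModule.single_add]
    convert this using 1
    abel
  | single j m =>
    rw [ev_single]
    exact single_mem M j m

theorem exact_df_ev : Function.Exact (df (R := R) M) (ev (R := R) M) := by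
  intro p
  constructor
  · intro hp
    have := mem_range M p
    rw [hp, PolynomialModule.single_zero, sub_zero] at this
    exact this
  · rintro ⟨q, rfl⟩
    exact ev_df M q

theorem ev_surj : Function.Surjective (ev (R := R) M) := fun m =>
  ⟨PolynomialModule.single R 0 m, by rw [ev_single]; simp⟩

end seq

/-- the step -/
theorem step {R : Type} [CommRing R] {n : ℕ}
    (h : ∀ (M : Type) [AddCommGroup M] [Module R M],
      HasProjectiveDimensionLE (ModuleCat.of R M) n)
    (M : Type) [AddCommGroup M] [Module R[X] M] :
    HasProjectiveDimensionLE (ModuleCat.of R[X] M) (n + 1) := by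
  let _ : Module R M := Module.compHom M (algebraMap R R[X])
  have _ : IsScalarTower R R[X] M := IsScalarTower.of_algebraMap_smul fun r m => rfl
  have h1 := bc (A := R[X]) n M (h M)
  have e := PolynomialModule.polynomialTensorProductLEquivPolynomialModule R M
  have h2 : HasProjectiveDimensionLE (ModuleCat.of R[X] (PolynomialModule R M)) n :=
    ModuleCat.hasProjectiveDimensionLE_of_linearEquiv (M := ModuleCat.of R[X] (R[X] ⊗[R] M))
      (N := ModuleCat.of R[X] (PolynomialModule R M)) e n
  let T : ShortComplex (ModuleCat.{0} R[X]) :=
    ModuleCat.shortComplexOfCompEqZero (df (R := R) M) (ev (R := R) M)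
      (exact_df_ev M).linearMap_comp_eq_zero
  have hT : T.ShortExact :=
    ModuleCat.shortComplex_shortExact T (exact_df_ev M) (df_inj M) (ev_surj M)
  have h3 : HasProjectiveDimensionLT T.X₁ (n + 1) := h2
  have h4 : HasProjectiveDimensionLT T.X₂ (n + 1) := h2
  have h5 : HasProjectiveDimensionLT T.X₂ (n + 1 + 1) :=
    hasProjectiveDimensionLT_of_ge T.X₂ (n + 1) (n + 1 + 1) (by omega)
  exact hT.hasProjectiveDimensionLT_X₃ (n + 1) h3 h5

attribute [local instance] RingHomInvPair.of_ringEquiv in
theorem transport {R R' : Type} [CommRing R] [CommRing R'] (e : R ≃+* R') {n : ℕ}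
    (h : ∀ (M : Type) [AddCommGroup M] [Module R' M],
      HasProjectiveDimensionLE (ModuleCat.of R' M) n)
    (M : Type) [AddCommGroup M] [Module R M] : HasProjectiveDimensionLE (ModuleCat.of R M) n := by
  let _ : Module R' M := Module.compHom M e.symm.toRingHom
  have h1 := h M
  let e' : (ModuleCat.of R' M) ≃ₛₗ[RingHomClass.toRingHom e.symm] (ModuleCat.of R M) :=
    { toFun := fun m => m
      invFun := fun m => m
      left_inv := fun _ => rfl
      right_inv := fun _ => rfl
      map_add' := fun _ _ => rfl
      map_smul' := fun _ _ => rfl }
  exact ModuleCat.hasProjectiveDimensionLE_of_semiLinearEquiv e.symm e' n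

theorem gd : ∀ (n : ℕ) (M : Type) [AddCommGroup M] [Module (MvPolynomial (Fin n) ℂ) M],
    HasProjectiveDimensionLE (ModuleCat.of (MvPolynomial (Fin n) ℂ) M) n
  | 0 => by
    apply transport (MvPolynomial.isEmptyRingEquiv ℂ (Fin 0))
    intro M _ _
    simp only [HasProjectiveDimensionLE, zero_add]
    rw [← projective_iff_hasProjectiveDimensionLT_one, ← IsProjective.iff_projective]
    change Module.Projective ℂ M
    infer_instance
  | n + 1 => transport (MvPolynomial.finSuccEquiv ℂ n).toRingEquiv (step (gd n))

theorem pdim_ok : S_PDIM := fun n M _ _ => pd_of_cat n M (gd n M)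

end Pool.Agent.Helper76.AC
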